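import Mathlib
import Pool.Agent.Q78.FO.Split

set_option autoImplicit false

/-!
# Superabundance, distinct multiplicities and multiple fixed components

Let `L` be the system of the plane curves of degree `d` with multiplicity at least `m 1, …, m h` at
`h` general points, and let `Y` be a finite set of integers such that every multiplicity `m i ≥ 2`
is one of the numbers `y` and `y - 1`, `y ∈ Y`. If `L` is not empty and
`dim L > virtdim L + ∑ binom (y - 1) 2` (sum over `Y`), then `L` has a multiple fixed component,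
as Segre's conjecture predicts; more precisely, a curve through one of the points `P i` with
`m i ≥ 2` is contained in `L` at least `m i` times. In general, every nonempty `L` is of the
form `2 G + L'`, where `L'` is the system of the curves of degree `d'` with multiplicities `m' i` at
the same points, `L'` has no multiple fixed component, `dim L' = dim L`, and
`dim L' ≤ virtdim L' + ∑ binom (y - 1) 2` for every `Y` adapted to `m'`.

The proof works with generic points over a field `K` of characteristic zero. If the leading forms at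
`P i` of the members with multiplicity `m i - 1` at `P i` (and `m j` at the other points) are
spanned by one form, then the leading forms of degree `m i` of the members of `L` are killed by the
derivative in some direction `v`. The derivation of `K` which moves `P i` in the direction `v` and
fixes the other points then maps `L` into itself. So `L` has a basis over the field of constants of
the derivation, and the curve over the constants which contains `P i` is contained in all the
members with multiplicity `m i`. If there are always two independent leading forms, then the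
bound follows, since the spaces of leading forms grow whenever the multiplicities of suitable other
points are lowered.
-/

namespace Pool.Agent.Results.MP_cfebfb_ag.DistinctMultiplicitiesBound

open MvPolynomial

/-- The space of the forms of degree `d` in three variables `X 0, X 1, X 2` which vanish to order
at least `m i` at the point `(1 : P i 0 : P i 1)` for every `i`. -/
noncomputable def system {h : ℕ} (P : Fin h → Fin 2 → ℂ) (d : ℕ) (m : Fin h → ℕ) :
    Submodule ℂ (MvPolynomial (Fin 3) ℂ) :=
  homogeneousSubmodule (Fin 3) ℂ d ⊓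
    Submodule.restrictScalars ℂ
      (⨅ i : Fin h, (Ideal.span ({X 1 - C (P i 0) * X 0, X 2 - C (P i 1) * X 0} :
        Set (MvPolynomial (Fin 3) ℂ))) ^ (m i))

/-- The dimension of the linear system, `-1` if it is empty. -/
noncomputable def dimL {h : ℕ} (P : Fin h → Fin 2 → ℂ) (d : ℕ) (m : Fin h → ℕ) : ℤ :=
  (Module.finrank ℂ ↥(system P d m) : ℤ) - 1

/-- The virtual dimension. -/
def virtdim {h : ℕ} (d : ℕ) (m : Fin h → ℕ) : ℤ :=
  ((d + 2).choose 2 : ℤ) - 1 - ∑ i, ((m i + 1).choose 2 : ℤ)

/-- Every multiplicity which is at least `2` is one of the numbers `y` and `y - 1` for an element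
`y` of `Y`. -/
def Adapted {h : ℕ} (Y : Finset ℕ) (m : Fin h → ℕ) : Prop :=
  ∀ i, 2 ≤ m i → m i ∈ Y ∨ m i + 1 ∈ Y

/-- The sum of the numbers `binom (y - 1) 2` over `y ∈ Y`. -/
def bound (Y : Finset ℕ) : ℤ := ∑ y ∈ Y, ((y - 1).choose 2 : ℤ)

/-- The system has a multiple fixed component. -/
def NonReduced {h : ℕ} (P : Fin h → Fin 2 → ℂ) (d : ℕ) (m : Fin h → ℕ) : Prop :=
  ∃ (c : ℕ) (H : MvPolynomial (Fin 3) ℂ), 0 < c ∧ H.IsHomogeneous c ∧ H ≠ 0 ∧
    ∀ f ∈ system P d m, H ^ 2 ∣ f

theorem system_eq {h : ℕ} (P : Fin h → Fin 2 → ℂ) (d : ℕ) (m : Fin h → ℕ) :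
    system P d m = Pool.Agent.H932R5.Vd (K := ℂ) (E := 1) d m P := by
  have h1 : ∀ i, (Ideal.span ({X 1 - C (P i 0) * X 0, X 2 - C (P i 1) * X 0} :
      Set (MvPolynomial (Fin 3) ℂ))) = Pool.Agent.H932R5.hI (K := ℂ) (E := 1) (P i) := by
    intro i
    unfold Pool.Agent.H932R5.hI
    congr 1
    ext f
    constructor
    · rintro (rfl | rfl)
      · exact ⟨0, rfl⟩
      · exact ⟨1, rfl⟩
    · rintro ⟨j, rfl⟩
      fin_cases j
      · exact Or.inl rfl
      · exact Or.inr rfl
  unfold system Pool.Agent.H932R5.Vd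
  simp only [h1]

theorem dim_eq {h : ℕ} (P : Fin h → Fin 2 → ℂ) (d : ℕ) (m : Fin h → ℕ) :
    dimL P d m =
      (Module.finrank ℂ ↥(Pool.Agent.H932R5.Vd (K := ℂ) (E := 1) d m P) : ℤ) - 1 := by
  unfold dimL
  rw [system_eq]

theorem virtdim_eq {h : ℕ} (d : ℕ) (m : Fin h → ℕ) :
    virtdim d m = Pool.Agent.Q78.GW.nv 1 m d - 1 := by
  unfold virtdim Pool.Agent.Q78.GW.nv
  ring

theorem result (h d : ℕ) (m : Fin h → ℕ) :
    ∃ F : MvPolynomial (Fin h × Fin 2) ℂ, F ≠ 0 ∧
      ∀ P : Fin h → Fin 2 → ℂ,
        MvPolynomial.eval (fun ij : Fin h × Fin 2 => P ij.1 ij.2) F ≠ 0 →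
        0 ≤ dimL P d m →
        (∀ Y : Finset ℕ, Adapted Y m → virtdim d m + bound Y < dimL P d m →
          ∃ i, 2 ≤ m i ∧ ∃ (c : ℕ) (H : MvPolynomial (Fin 3) ℂ), 0 < c ∧ H.IsHomogeneous c ∧
            H ≠ 0 ∧ MvPolynomial.eval ![1, P i 0, P i 1] H = 0 ∧
            ∀ f ∈ system P d m, H ^ (m i) ∣ f) ∧
        ∃ (e : ℕ) (G : MvPolynomial (Fin 3) ℂ) (m' : Fin h → ℕ),
          2 * e ≤ d ∧ G.IsHomogeneous e ∧ G ≠ 0 ∧ m' ≤ m ∧
          (∀ f, f ∈ system P d m ↔ ∃ f' ∈ system P (d - 2 * e) m', f = G ^ 2 * f') ∧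
          dimL P (d - 2 * e) m' = dimL P d m ∧ ¬ NonReduced P (d - 2 * e) m' ∧
          ∀ Y : Finset ℕ, Adapted Y m' →
            dimL P (d - 2 * e) m' ≤ virtdim (d - 2 * e) m' + bound Y := by
  obtain ⟨F1, hF1, h1⟩ := Pool.Agent.Q78.FO.general_segre h m d
  obtain ⟨F2, hF2, h2⟩ := Pool.Agent.Q78.FO.general_split h m d
  refine ⟨F1 * F2, mul_ne_zero hF1 hF2, fun P hP hne => ?_⟩
  rw [map_mul] at hP
  rw [dim_eq] at hne
  have hne' : Module.finrank ℂ ↥(Pool.Agent.H932R5.Vd (K := ℂ) (E := 1) d m P) ≠ 0 := by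
    omega
  refine ⟨fun Y hY hbig => ?_, ?_⟩
  · rw [dim_eq, virtdim_eq] at hbig
    unfold bound at hbig
    obtain ⟨i, hi, c, H, hc, hH, hH0, hHi, hdvd⟩ :=
      h1 P (left_ne_zero_of_mul hP) hne' Y hY (by linarith)
    refine ⟨i, hi, c, H, hc, hH, hH0, ?_, fun f hf => ?_⟩
    · rw [← hHi]
      congr 1
      refine congrArg _ (funext fun j => ?_)
      fin_cases j <;> rfl
    · rw [system_eq] at hf
      exact hdvd f hf
  · obtain ⟨e, G, w', h3, h4, h5, h6, h7, h8, h9, h10⟩ := h2 P (right_ne_zero_of_mul hP) hne'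
    refine ⟨e, G, w', h3, h4, h5, h6, fun f => ?_, ?_, ?_, fun Y hY => ?_⟩
    · rw [system_eq, system_eq]
      exact h7 f
    · rw [dim_eq, dim_eq, h8]
    · rintro ⟨c, H, hc, hH, hH0, hall⟩
      rw [system_eq] at hall
      exact h9 c H hc hH hH0 hall
    · rw [dim_eq, virtdim_eq]
      have h11 := h10 Y hY
      unfold bound
      linarith

end Pool.Agent.Results.MP_cfebfb_ag.DistinctMultiplicitiesBound
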