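import Pool.Agent.Q54.FM.Inp
import Pool.Agent.Q54.FM.Cor

set_option autoImplicit false

/-!
# Segre's conjecture for equal multiplicities, for all numbers of points at once

For a positive proportion of the multiplicities `m`, Q1 is settled for ALL systems with equal multiplicities `m` at ten
or more points: for EVERY number `h ≥ 10` of general points and EVERY degree `d` the system `L_{2,d}(m, ..., m)` is not
special. (In the following `r` denotes the number of points.) This holds for a positive proportion `c` of the multiplicities in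

* the values `f(n)`, `n < M`, of ANY polynomial `f` with integer coefficients of degree between `1` and `K` whose leading
  coefficient is at most `M ^ κ` (all intervals of length `M` wherever they are, arithmetic progressions with differences
  `≤ M ^ κ`, squares, `k`-th powers, ...),
* the numbers `b p + h`, `p ≤ M` prime, `p ≡ a mod d` with `|b|, d ≤ M ^ κ` (prime multiplicities, multiplicities `p + h`
  with `h` of any size, ...),

up to an error `M ^ (1 - κ)`; `c` is absolute, while `κ > 0` and the lower bound for `M` depend on `K` only. In particular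
these `m` have positive lower density in the natural numbers and in the primes.

Proof. If `m` is exceptional for `r < 37`, then an integer lies in a window of length less than one around
`√r (m + 1 / 2) - 3 / 2`, or (for `r = 11, 15`) a multiple of three lies in a window of length less than `1 / 2`; for
`r ≥ 37`, for `r = 13, 21` and for the squares there are no exceptions (starting files). The vectors of the multiples of
`√r`, `r` in different square classes, by the elements of the sequences are jointly uniformly distributed modulo one with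
a power saving. This follows from the bounds for exponential sums of the library of the team (`Pool.Agent.Q29.Eqd`) and
from a lower bound `|v_1 √r_1 + ... + v_s √r_s - a| ≥ c / H ^ D` for integers of absolute value at most `H`, proved with
the determinant of the multiplication on the multiquadratic field (`Pool.Agent.Q54.FM.liou`). The 22 numbers `r < 37` which have
to be considered lie in 20 square classes; for the two pairs `12, 27` and `18, 32` the windows are compared numerically.
-/

namespace Pool.Agent.Results.MP_cfebfb_ag.EqualMultiplicitiesNeverSpecial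

/-- For `h` general points `p i` of the plane (one nonempty open set for all degrees) and EVERY degree `d` the system of
curves of degree `d` with multiplicity at least `m` at the points is not special: any
`max (0, binom (d + 2) 2 - h * binom (m + 1) 2) + 1` forms in it are linearly dependent. -/
def NeverSpecial (h m : ℕ) : Prop :=
  ∃ Q : MvPolynomial (Fin h × Fin 3) ℂ, Q ≠ 0 ∧
    ∀ p : Fin h → Fin 3 → ℂ,
      MvPolynomial.eval (fun ij : Fin h × Fin 3 => p ij.1 ij.2) Q ≠ 0 →
      ∀ d : ℕ, ∀ F : Fin ((d + 2).choose 2 - ∑ _i : Fin h, (m + 1).choose 2 + 1) → MvPolynomial (Fin 3) ℂ,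
        (∀ k, F k ∈ MvPolynomial.homogeneousSubmodule (Fin 3) ℂ d ∧
          ∀ i, ∀ n : Fin 3 →₀ ℕ, ∑ j, n j < m →
            MvPolynomial.coeff n
              (MvPolynomial.aeval (R := ℂ)
                (fun j : Fin 3 => (MvPolynomial.X j + MvPolynomial.C (p i j) : MvPolynomial (Fin 3) ℂ)) (F k)) = 0) →
        ¬ LinearIndependent ℂ F

lemma neverSpecial_of (h m : ℕ) (_hr : 10 ≤ h) (_hm : 0 < m) (hg : Pool.Agent.Q54.FM.Gd h m) : NeverSpecial h m := by
  obtain ⟨F, hF, hF'⟩ := hg
  obtain ⟨Q, hQ, hQ'⟩ := H932R3.not_special_of (L := ℂ) (D := fun _ => True)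
    ⟨F, hF, fun P hP d _ => hF' P hP d⟩
  exact ⟨Q, hQ, fun p hp d => hQ' p hp d trivial⟩

/-- `SparseExceptions κ K M η P`: the property `P` fails rarely in polynomial sequences and along primes.
1. For every polynomial `f` with integer coefficients of degree between `1` and `K`, the leading coefficient being at most
   `M ^ κ` in absolute value (the other coefficients are arbitrary), `P (f n)` fails for at most
   `η M + M ^ (1 - κ)` of the natural numbers `n < M` with `f n > 0`.
2. For all integers `b ≠ 0` and `h` and natural numbers `d ≥ 1` and `a`, `|b|, d ≤ M ^ κ`, `P (b p + h)` fails for at most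
   `η T + M ^ (1 - κ)` of the `T` primes `p ≤ M` with `p ≡ a mod d` (only those with `b p + h > 0` are counted). -/
def SparseExceptions (κ : ℝ) (K M : ℕ) (η : ℝ) (P : ℕ → Prop) : Prop :=
  (∀ f : Polynomial ℤ, 1 ≤ f.natDegree → f.natDegree ≤ K → |(f.leadingCoeff : ℝ)| ≤ (M : ℝ) ^ κ →
    ({n : ℕ | n < M ∧ 0 < f.eval (n : ℤ) ∧ ¬ P (f.eval (n : ℤ)).toNat}.ncard : ℝ) ≤
      η * M + (M : ℝ) ^ (1 - κ)) ∧
  (∀ b h : ℤ, b ≠ 0 → |(b : ℝ)| ≤ (M : ℝ) ^ κ → ∀ d a : ℕ, 1 ≤ d → (d : ℝ) ≤ (M : ℝ) ^ κ →
    ({p : ℕ | p ≤ M ∧ p.Prime ∧ p ≡ a [MOD d] ∧ 0 < b * p + h ∧ ¬ P (b * p + h).toNat}.ncard : ℝ) ≤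
      η * ({p : ℕ | p ≤ M ∧ p.Prime ∧ p ≡ a [MOD d]}.ncard : ℝ) + (M : ℝ) ^ (1 - κ))

/-- There is a constant `c > 0` such that:
1. for every `K` there are `0 < κ ≤ 1` and `M₀` such that for all `M ≥ M₀` the multiplicities `m` for which
   `NeverSpecial h m` holds for EVERY `h ≥ 10` have the proportion at least `c` in all the sequences of `SparseExceptions`, up
   to `M ^ (1 - κ)`;
2. for all large `M` these are at least `c M / 2` of the multiplicities `m < M`;
3. for all large `M` these are at least `c π(M) / 2` of the prime multiplicities `m ≤ M`. -/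
theorem result : ∃ c : ℝ, 0 < c ∧ c ≤ 1 ∧
    (∀ K : ℕ, ∃ κ : ℝ, 0 < κ ∧ κ ≤ 1 ∧ ∃ M₀ : ℕ, ∀ M : ℕ, M₀ ≤ M →
      SparseExceptions κ K M (1 - c) (fun m => ∀ h : ℕ, 10 ≤ h → NeverSpecial h m)) ∧
    (∃ M₁ : ℕ, ∀ M : ℕ, M₁ ≤ M →
      c / 2 * M ≤ ({m : ℕ | m < M ∧ 0 < m ∧ ∀ h : ℕ, 10 ≤ h → NeverSpecial h m}.ncard : ℝ)) ∧
    (∃ M₁ : ℕ, ∀ M : ℕ, M₁ ≤ M →
      c / 2 * (Nat.primeCounting M : ℝ) ≤
        ({p : ℕ | p ≤ M ∧ p.Prime ∧ ∀ h : ℕ, 10 ≤ h → NeverSpecial h p}.ncard : ℝ)) := by
  obtain ⟨c, hc, hc1, h⟩ := Pool.Agent.Q54.FM.all_points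
  obtain ⟨h1, h2⟩ := Pool.Agent.Q54.FM.density_of_sparse hc _ (h _ (Pool.Agent.Q54.FM.inputs.mono neverSpecial_of) 1)
  refine ⟨c, hc, hc1, fun K => ?_, h1, h2⟩
  obtain ⟨κ, hκ, hκ1, M₀, -, h'⟩ := h _ (Pool.Agent.Q54.FM.inputs.mono neverSpecial_of) K
  exact ⟨κ, hκ, hκ1, M₀, h'⟩

end Pool.Agent.Results.MP_cfebfb_ag.EqualMultiplicitiesNeverSpecial
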