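import Mathlib
import Pool.Agent.Q310.FP.Fourth

set_option autoImplicit false

/-!
# Segre conjecture: the remaining classes are bounded in terms of the fourth multiplicity

Let `(d; w)` be any class and let the points be general. If the linear system is special, then twice
a `(-1)`-curve is a fixed part of it, or, after the removal of disjoint `(-1)`-curves, each taken
once, and finitely many quadratic transformations, it is a special standard class of the same
dimension with `Rem4`.

`Small4 d v`, for multiplicities `v 0 ≥ v 1 ≥ ⋯`, means: `v 3 > 0`; `v 2 < 2 (v 3) ^ 2 + 3 v 3 + 2`;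
`v 2 < 4 m ^ 2 + 8 m + 5` for every `m ≥ 1` such that at most the first five multiplicities are
larger than `m`; `(d + 1) (d + 2) < 2 ^ 17 (v 3 + 1) ^ 4 + ∑_{i < 3} v i (v i + 1)`;
`∑_{i ≥ 3} (v i + 1).choose 2 < 2 ^ 17 (v 3 + 1) ^ 4`; and
`d + 1 + v 0 v 1 + v 0 v 2 + v 1 v 2 < 2 ^ 16 (v 3 + 1) ^ 4`. `Rem4 d w`: the multiplicities `w`, in
decreasing order, satisfy `Small4`. So for every value of the fourth multiplicity only finitely many
classes satisfy `Rem4`, for all numbers of points together.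
-/

namespace Pool.Agent.Results.MP_cfebfb_ag.FourthMultiplicity

open MvPolynomial Pool.Agent.TH167.SHDefs Pool.Agent.Q310.FP

theorem result (n : ℕ) (hn : 4 ≤ n) (d : ℕ) (w : Fin n → ℕ) :
    ∃ F : MvPolynomial (Fin n × Fin 2) ℂ, F ≠ 0 ∧
      ∀ P : Fin n → Fin 2 → ℂ, eval (fun ij : Fin n × Fin 2 => P ij.1 ij.2) F ≠ 0 →
        Special P d w →
          (∃ (G : MvPolynomial (Fin 3) ℂ) (e : ℕ) (u : Fin n → ℕ),
            MinusOne P G e u ∧ inter d w e u ≤ -2 ∧ ∀ f ∈ sys P d w, G ^ 2 ∣ f) ∨
          ∃ (d'' : ℕ) (w'' : Fin n → ℕ) (k : ℕ) (G : Fin k → MvPolynomial (Fin 3) ℂ)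
            (e : Fin k → ℕ) (u : Fin k → Fin n → ℕ) (d' : ℕ) (w' : Fin n → ℕ),
            Decomp P d w d'' w'' G e u (fun _ => 1) ∧
            Relation.ReflTransGen Quadratic (d'', w'') (d', w') ∧ Standard d' w' ∧
            dimL P d' w' = dimL P d w ∧ Special P d' w' ∧ Rem4 d' w' :=
  segre_rem hn (R := Rem4) (std_or4 hn) d w

end Pool.Agent.Results.MP_cfebfb_ag.FourthMultiplicity
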