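import Mathlib
import Pool.Agent.Q310.FP.Gap

set_option autoImplicit false

/-!
# Segre conjecture: the uniform gap above the Nagata bound

Let `(d; w)` be any class and let the points be general. If the linear system is special, then twice
a `(-1)`-curve is a fixed part of it, or, after the removal of disjoint `(-1)`-curves, each taken
once, and finitely many quadratic transformations, it is a special standard class of the same
dimension with `AboveGap`.

`AboveGap d w` means, if `d > 0`, for every set `T` of at least ten points: if `T` has at least twelve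
points or `3` does not divide `d`, then `∑_T w i + 1 - 3 / √|T| ≤ √|T| d`; and if the multiplicities on
`T` are `k` or `k + 1`, `k ≥ 1`, then `∑_T (w i) ^ 2 < d ^ 2`, except that equality is allowed if
`|T| = 10`, `k = 1` and `d` is `4` or `5`.
-/

namespace Pool.Agent.Results.MP_cfebfb_ag.UniformGapForms

open MvPolynomial Pool.Agent.TH167.SHDefs Pool.Agent.Q310.FP

theorem result (n : ℕ) (hn : 4 ≤ n) (d : ℕ) (w : Fin n → ℕ) :
    ∃ F : MvPolynomial (Fin n × Fin 2) ℂ, F ≠ 0 ∧
      ∀ P : Fin n → Fin 2 → ℂ, eval (fun ij : Fin n × Fin 2 => P ij.1 ij.2) F ≠ 0 →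
        Special P d w →
          (∃ (G : MvPolynomial (Fin 3) ℂ) (e : ℕ) (u : Fin n → ℕ),
            MinusOne P G e u ∧ inter d w e u ≤ -2 ∧ ∀ f ∈ sys P d w, G ^ 2 ∣ f) ∨
          ∃ (d'' : ℕ) (w'' : Fin n → ℕ) (k : ℕ) (G : Fin k → MvPolynomial (Fin 3) ℂ)
            (e : Fin k → ℕ) (u : Fin k → Fin n → ℕ) (d' : ℕ) (w' : Fin n → ℕ),
            Decomp P d w d'' w'' G e u (fun _ => 1) ∧
            Relation.ReflTransGen Quadratic (d'', w'') (d', w') ∧ Standard d' w' ∧
            dimL P d' w' = dimL P d w ∧ Special P d' w' ∧ AboveGap d' w' :=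
  segre_rem hn (R := AboveGap) (fun d w _ => gap_or d w) d w

end Pool.Agent.Results.MP_cfebfb_ag.UniformGapForms
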